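import Mathlib

namespace H329.RSeq

/-- `g 0, …, g (N-1)` is an ordering of the `N = |G| - 1` non-identity elements of the finite
group `G` whose `N` cyclic quotients `(g i)⁻¹ g (i+1)` (indices mod `N`) are pairwise distinct. -/
def IsRSequencing (G : Type*) [Group G] (N : ℕ) (g : ℕ → G) : Prop :=
  Nat.card G = N + 1 ∧ (∀ i < N, g i ≠ 1) ∧ (∀ i < N, ∀ j < N, g i = g j → i = j) ∧
  (∀ i < N, ∀ j < N, (g i)⁻¹ * g ((i + 1) % N) = (g j)⁻¹ * g ((j + 1) % N) → i = j)

/-- The relators of `⟨a, b | a ^ m = b ^ 2 = 1, b a b⁻¹ = a ^ r⟩`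
(`a` is the generator `false`, `b` is the generator `true`). -/
def rels (m r : ℕ) : Set (FreeGroup Bool) :=
  {FreeGroup.of false ^ m, FreeGroup.of true ^ 2,
    FreeGroup.of true * FreeGroup.of false * (FreeGroup.of true)⁻¹ * (FreeGroup.of false ^ r)⁻¹}

section abstract

variable {G : Type*} [Group G] (A B : G) (r : ℤ)

/-- `a ^ p b ^ s` -/
def V (p : ℤ) (s : Bool) : G := A ^ p * (if s then B else 1)

/-- exponent twist -/
def rho (s : Bool) : ℤ := if s then r else 1

variable {A B r}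

lemma conj (hB : B * B = 1) (hr : B * A * B⁻¹ = A ^ r) (d : ℤ) : B * A ^ d = A ^ (r * d) * B := by
  have h : (B * A * B⁻¹) ^ d = B * A ^ d * B⁻¹ := conj_zpow
  rw [hr, ← zpow_mul] at h
  rw [h]; group

lemma V_mul (hB : B * B = 1) (hr : B * A * B⁻¹ = A ^ r) (p p' : ℤ) (s s' : Bool) :
    V A B p s * V A B p' s' = V A B (p + rho r s * p') (xor s s') := by
  cases s <;> cases s' <;> simp only [V, rho, Bool.false_eq_true, if_true, if_false, mul_one,
    Bool.xor_true, Bool.xor_false, Bool.not_true, Bool.not_false, one_mul]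
  · rw [← zpow_add]
  · rw [← mul_assoc, ← zpow_add]
  · rw [mul_assoc, conj hB hr, ← mul_assoc, ← zpow_add]
  · rw [mul_assoc (A ^ p) B, ← mul_assoc B, conj hB hr, mul_assoc (A ^ (r * p')), hB, mul_one,
      ← zpow_add]

lemma V_inv_mul (hB : B * B = 1) (hr : B * A * B⁻¹ = A ^ r) (p p' : ℤ) (s s' : Bool) :
    (V A B p s)⁻¹ * V A B p' s' = V A B (rho r s * (p' - p)) (xor s s') := by
  have hB' : B⁻¹ = B := inv_eq_of_mul_eq_one_left hB
  cases s
  · simp only [V, rho, Bool.false_eq_true, if_false, mul_one, one_mul, Bool.false_xor]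
    rw [← mul_assoc, ← zpow_neg, ← zpow_add, sub_eq_neg_add]
  · have h := conj hB hr (p' - p)
    have h1 : (A ^ p * B)⁻¹ * A ^ p' = A ^ (r * (p' - p)) * B := by
      rw [← h, mul_inv_rev, hB', mul_assoc, ← zpow_neg, ← zpow_add, sub_eq_neg_add]
    cases s' <;> simp only [V, rho, Bool.false_eq_true, if_true, if_false, mul_one,
      Bool.xor_true, Bool.xor_false, Bool.not_true, Bool.not_false]
    · exact h1
    · rw [← mul_assoc, h1, mul_assoc, hB, mul_one]

end abstract

section presented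

variable {m r : ℕ}

/-- the group `⟨a, b | a ^ m = b ^ 2 = 1, b a b⁻¹ = a ^ r⟩` -/
abbrev Grp (m r : ℕ) : Type := PresentedGroup (rels m r)

def ga (m r : ℕ) : Grp m r := PresentedGroup.of false
def gb (m r : ℕ) : Grp m r := PresentedGroup.of true

lemma rel_one {x : FreeGroup Bool} (hx : x ∈ rels m r) :
    (PresentedGroup.mk (rels m r) x) = 1 := by
  exact PresentedGroup.one_of_mem hx

lemma ga_pow : (ga m r) ^ m = 1 := by
  have := rel_one (m := m) (r := r) (x := FreeGroup.of false ^ m) (by simp [rels])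
  simpa [ga, PresentedGroup.of] using this

lemma gb_sq : gb m r * gb m r = 1 := by
  have := rel_one (m := m) (r := r) (x := FreeGroup.of true ^ 2) (by simp [rels])
  simpa [gb, PresentedGroup.of, pow_two] using this

lemma g_conj : gb m r * ga m r * (gb m r)⁻¹ = (ga m r) ^ (r : ℤ) := by
  have := rel_one (m := m) (r := r) (x := FreeGroup.of true * FreeGroup.of false *
    (FreeGroup.of true)⁻¹ * (FreeGroup.of false ^ r)⁻¹) (by simp [rels])
  have h2 : gb m r * ga m r * (gb m r)⁻¹ * ((ga m r) ^ r)⁻¹ = 1 := by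
    simpa [ga, gb, PresentedGroup.of] using this
  rw [zpow_natCast]
  exact mul_inv_eq_one.mp h2

/-- the affine action on `ZMod m` -/
def actB (hrr : (r : ZMod m) * r = 1) : Equiv.Perm (ZMod m) where
  toFun x := r * x
  invFun x := r * x
  left_inv x := by show (r : ZMod m) * (r * x) = x; rw [← mul_assoc, hrr, one_mul]
  right_inv x := by show (r : ZMod m) * (r * x) = x; rw [← mul_assoc, hrr, one_mul]

def act (hrr : (r : ZMod m) * r = 1) : Bool → Equiv.Perm (ZMod m)
  | false => Equiv.addLeft 1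
  | true => actB hrr

lemma addLeft_pow (k : ℕ) (x : ZMod m) : ((Equiv.addLeft (1 : ZMod m)) ^ k) x = k + x := by
  induction k with
  | zero => simp
  | succ k ih => rw [pow_succ', Equiv.Perm.mul_apply, ih]; simp [Equiv.addLeft]; ring

lemma act_rels (hrr : (r : ZMod m) * r = 1) :
    ∀ x ∈ rels m r, FreeGroup.lift (act hrr) x = 1 := by
  intro x hx
  simp only [rels, Set.mem_insert_iff, Set.mem_singleton_iff] at hx
  rcases hx with rfl | rfl | rfl
  · ext y
    simp [act, addLeft_pow]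
  · ext y
    simp [act, actB, pow_two, Equiv.Perm.mul_apply, ← mul_assoc, hrr]
  · rw [map_mul, map_inv, mul_inv_eq_one]
    have h1 : (actB hrr)⁻¹ = actB hrr := by
      rw [inv_eq_iff_mul_eq_one]; ext y
      simp [actB, Equiv.Perm.mul_apply, ← mul_assoc, hrr]
    ext y
    simp [act, h1, Equiv.Perm.mul_apply, addLeft_pow]
    simp [actB, mul_add, ← mul_assoc, hrr]

/-- the homomorphism to permutations of `ZMod m` -/
def toPerm (hrr : (r : ZMod m) * r = 1) : Grp m r →* Equiv.Perm (ZMod m) :=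
  PresentedGroup.toGroup (act_rels hrr)

lemma addLeft_zpow (k : ℤ) (x : ZMod m) : ((Equiv.addLeft (1 : ZMod m)) ^ k) x = k + x := by
  cases k with
  | ofNat k => simpa using addLeft_pow k x
  | negSucc k =>
    rw [zpow_negSucc, Equiv.Perm.inv_eq_iff_eq, addLeft_pow]
    push_cast; ring

lemma toPerm_V (hrr : (r : ZMod m) * r = 1) (p : ℤ) (s : Bool) (x : ZMod m) :
    toPerm hrr (V (ga m r) (gb m r) p s) x = p + (if s then (r : ZMod m) * x else x) := by
  have ha : toPerm hrr (ga m r) = Equiv.addLeft 1 := by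
    simp [toPerm, ga, act]
  have hb : toPerm hrr (gb m r) = actB hrr := by
    simp [toPerm, gb, act]
  cases s
  · simp only [V, Bool.false_eq_true, if_false, mul_one]
    rw [map_zpow, ha, addLeft_zpow]
  · simp only [V, if_true]
    rw [map_mul, map_zpow, ha, hb, Equiv.Perm.mul_apply, addLeft_zpow]
    rfl

lemma V_eq (hrr : (r : ZMod m) * r = 1) (hr1 : (r : ZMod m) ≠ 1) {p p' : ℤ} {s s' : Bool}
    (h : V (ga m r) (gb m r) p s = V (ga m r) (gb m r) p' s') :
    s = s' ∧ (m : ℤ) ∣ p - p' := by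
  have h0 := congrArg (fun g => toPerm hrr g 0) h
  have h1 := congrArg (fun g => toPerm hrr g 1) h
  simp only [toPerm_V] at h0 h1
  have hp : (p : ZMod m) = p' := by simpa using h0
  rw [hp] at h1
  have h2 := add_left_cancel h1
  constructor
  · cases s <;> cases s' <;> simp_all
  · have := (ZMod.intCast_eq_intCast_iff_dvd_sub p' p m).mp hp.symm
    exact this

lemma V_congr {p p' : ℤ} (s : Bool) (h : (m : ℤ) ∣ p - p') :
    V (ga m r) (gb m r) p s = V (ga m r) (gb m r) p' s := by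
  obtain ⟨c, hc⟩ := h
  have : p = p' + m * c := by omega
  rw [this]; simp only [V]
  rw [zpow_add, zpow_mul, zpow_natCast, ga_pow, one_zpow, mul_one]

lemma V_surj (x : Grp m r) : ∃ (p : ℤ) (s : Bool), V (ga m r) (gb m r) p s = x := by
  have hx : x ∈ Subgroup.closure (Set.range (PresentedGroup.of (rels := rels m r))) := by
    rw [PresentedGroup.closure_range_of]; trivial
  induction hx using Subgroup.closure_induction with
  | mem y hy =>
    obtain ⟨b, rfl⟩ := hy
    cases b
    · exact ⟨1, false, by simp [V, ga]⟩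
    · exact ⟨0, true, by simp [V, gb]⟩
  | one => exact ⟨0, false, by simp [V]⟩
  | mul y z _ _ hy hz =>
    obtain ⟨p, s, rfl⟩ := hy
    obtain ⟨p', s', rfl⟩ := hz
    exact ⟨_, _, (V_mul gb_sq g_conj p p' s s').symm⟩
  | inv y _ hy =>
    obtain ⟨p, s, rfl⟩ := hy
    refine ⟨rho r s * (0 - p), xor s false, ?_⟩
    rw [← V_inv_mul gb_sq g_conj]
    simp [V]

lemma card_Grp (hm : 0 < m) (hrr : (r : ZMod m) * r = 1) (hr1 : (r : ZMod m) ≠ 1) :
    Nat.card (Grp m r) = 2 * m := by
  have e : Function.Bijective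
      (fun x : Fin m × Bool => V (ga m r) (gb m r) (x.1 : ℕ) x.2) := by
    constructor
    · rintro ⟨⟨i, hi⟩, s⟩ ⟨⟨j, hj⟩, t⟩ h
      obtain ⟨h1, h2⟩ := V_eq hrr hr1 h
      simp only at h1 h2
      have : (i : ℤ) = j := by
        have := Int.eq_zero_of_abs_lt_dvd h2 (by rw [abs_lt]; constructor <;> omega)
        omega
      have : i = j := by omega
      subst this; subst h1; rfl
    · intro x
      obtain ⟨p, s, rfl⟩ := V_surj x
      have hm' : (0 : ℤ) < m := by exact_mod_cast hm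
      refine ⟨(⟨(p % m).toNat, ?_⟩, s), ?_⟩
      · have := Int.emod_lt_of_pos p hm'
        have := Int.emod_nonneg p hm'.ne'
        omega
      · apply V_congr
        have h0 := Int.emod_nonneg p hm'.ne'
        simp only [Int.toNat_of_nonneg h0]
        exact ⟨-(p / m), by have := Int.emod_add_mul_ediv p m; linarith⟩
  rw [← Nat.card_congr (Equiv.ofBijective _ e)]
  simp [mul_comm]

end presented

/-- The general criterion: positions `P k`, cosets `S k`, and colours `C k` in `[0, m)`. -/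
theorem rseq_criterion (m r : ℕ) (hm : 0 < m) (hrr : (r : ZMod m) * r = 1)
    (hr1 : (r : ZMod m) ≠ 1) (P : ℕ → ℤ) (S : ℕ → Bool) (C : ℕ → ℤ) (p0 : ℤ) (s0 : Bool)
    (lo : Bool → ℤ)
    (hP : ∀ k < 2 * m - 1, lo (S k) ≤ P k ∧ P k < lo (S k) + m)
    (hp0 : lo s0 ≤ p0 ∧ p0 < lo s0 + m)
    (h0 : ∀ k < 2 * m - 1, S k = s0 → P k ≠ p0)
    (hinj : ∀ k < 2 * m - 1, ∀ l < 2 * m - 1, S k = S l → P k = P l → k = l)
    (hC : ∀ k < 2 * m - 1, 0 ≤ C k ∧ C k < m)
    (hcol : ∀ k < 2 * m - 1,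
      (m : ℤ) ∣ rho r (S k) * (P ((k + 1) % (2 * m - 1)) - P k) - C k)
    (hCinj : ∀ k < 2 * m - 1, ∀ l < 2 * m - 1,
      xor (S k) (S ((k + 1) % (2 * m - 1))) = xor (S l) (S ((l + 1) % (2 * m - 1))) →
      C k = C l → k = l) :
    ∃ (N : ℕ) (g : ℕ → Grp m r), IsRSequencing (Grp m r) N g := by
  set W : ℤ → Bool → Grp m r := V (ga m r) (gb m r) with hW
  have key : ∀ (s : Bool) (p p' : ℤ), lo s ≤ p → p < lo s + m → lo s ≤ p' → p' < lo s + m →
      (m : ℤ) ∣ p - p' → p = p' := by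
    intro s p p' h1 h2 h3 h4 h5
    have := Int.eq_zero_of_abs_lt_dvd h5 (by rw [abs_lt]; constructor <;> omega)
    omega
  refine ⟨2 * m - 1, fun k => (W p0 s0)⁻¹ * W (P k) (S k), ?_, ?_, ?_, ?_⟩
  · rw [card_Grp hm hrr hr1]; omega
  · intro k hk h
    rw [inv_mul_eq_one] at h
    obtain ⟨h1, h2⟩ := V_eq hrr hr1 h
    have hb := hP k hk
    rw [← h1] at hb
    exact h0 k hk h1.symm (key s0 _ _ hb.1 hb.2 hp0.1 hp0.2 (by
      obtain ⟨c, hc⟩ := h2; exact ⟨-c, by linarith⟩))
  · intro k hk l hl h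
    have h' := mul_left_cancel h
    obtain ⟨h1, h2⟩ := V_eq hrr hr1 h'
    have hb := hP k hk
    have hb' := hP l hl
    rw [← h1] at hb'
    exact hinj k hk l hl h1 (key _ _ _ hb.1 hb.2 hb'.1 hb'.2 h2)
  · intro k hk l hl h
    have e : ∀ i j : ℕ, ((W p0 s0)⁻¹ * W (P i) (S i))⁻¹ * ((W p0 s0)⁻¹ * W (P j) (S j)) =
        W (rho r (S i) * (P j - P i)) (xor (S i) (S j)) := by
      intro i j
      rw [hW, ← V_inv_mul gb_sq g_conj]; group
    simp only [e] at h
    have c : ∀ k < 2 * m - 1, W (rho r (S k) * (P ((k + 1) % (2 * m - 1)) - P k))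
        (xor (S k) (S ((k + 1) % (2 * m - 1)))) =
        W (C k) (xor (S k) (S ((k + 1) % (2 * m - 1)))) := by
      intro k hk
      exact V_congr _ (hcol k hk)
    rw [c k hk, c l hl] at h
    obtain ⟨h1, h2⟩ := V_eq hrr hr1 h
    have b1 := hC k hk
    have b2 := hC l hl
    have := Int.eq_zero_of_abs_lt_dvd h2 (by rw [abs_lt]; constructor <;> omega)
    exact hCinj k hk l hl h1 (by omega)

end H329.RSeq
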